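import Pool.Agent.J6H58.AD.Main

/-!
# Thomassen's conjecture for digraphs of linear minimum semidegree, and more

Thomassen conjectured that for some `k` every `k`-arc-connected digraph `D` has, for every vertex
`r`, an out-arborescence and an in-arborescence with the root `r` which are arc-disjoint. Here this is
proved for the digraphs in which every vertex has at least `n / d` out-neighbours and at least `n / d`
in-neighbours, where `n` is the number of vertices and `d` is a constant: `k = 17000 d ^ 5` is enough,
for all `n`, and the two arborescences may have different roots (`of_min_semidegree`, below).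
The arc-connectivity of such digraphs can be small compared with `n` : for example
two complete digraphs with `n / 2` vertices each may be joined by `k` arcs in either direction.

More generally (the theorem `result`), vertices with fewer neighbours are allowed if they do not contain
large independent sets: let `a` be a bound for the size of the independent sets of vertices `v` such that
`v` has less than `n / d` out-neighbours or less than `n / d` in-neighbours. Then
`k = 17000 (a + 1) ^ 2 d ^ 5` is enough. So this covers both the digraphs of linear minimum semidegree
(`a = 0`) and the digraphs of bounded independence number, and all mixtures of the two.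

Proof. A partial pair consists of disjoint sets `X`, `Y` of arcs; `X` reaches from `s` the set `U(X)`,
`Y` reaches `t` from the set `U(Y)`, the tails of the arcs of `X` are in `U(X)`, the heads of the arcs
of `Y` in `U(Y)`. Consider the numbers of the arcs outside of `Y` which enter a set disjoint from
`U(X)`, and of the arcs outside of `X` which leave a set disjoint from `U(Y)`. (1) As in
`MP_4c21b8_co/SmallIndependenceNumber.lean`, `X` can be extended such that it reaches a given vertex and
these numbers decrease by at most one. Here it is also used that the new arcs can be chosen as arcs of
a path (`grow_path`), so after the vertices of a set `Q` have been reached by both parts, `X` and `Y`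
have at most `|Q|` arcs with a given tail or head. (2) By a greedy choice there is a set `Q` of bounded
size such that all but `ε n` of the vertices of large semidegree have an in-neighbour and an
out-neighbour in `Q` (`exists_set`). (3) Now `X` uses all remaining arcs which leave `Q`, and `Y` those
which enter `Q`; this is free. Since only `2 |Q| ^ 2` arcs at `Q` were used before for the other part,
all but `ε n + 2 |Q| ^ 2` vertices of large semidegree are reached by both parts. (4) Next `X` uses
all remaining arcs which leave the set `Z` of the vertices which are reached by both parts, and `Y` those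
which enter `Z`. Since a vertex of large semidegree has more than `|Q|` in-neighbours and more than
`|Q|` out-neighbours in `Z`, it is now reached by both parts. (5) The remaining vertices have
small semidegree; they are treated as in `SmallIndependenceNumber.lean` (at most `a` further hubs, then
the completion of the partial pair). For (2)-(4) it is also needed that the number of the vertices of
very small semidegree is at most `ε n`; this follows from the bound on the independent sets
(`exists_indep`). If the number of vertices is bounded, all vertices are reached as in (1).
-/

set_option autoImplicit false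

namespace Pool.Agent.Results.MP_4c21b8_co.FewLowSemidegreeIndependent

variable {V A : Type}

/-- `v` and `w` are different and joined by an arc in one of the two directions -/
def Adjacent (tail head : A → V) (v w : V) : Prop :=
  v ≠ w ∧ ∃ a, (tail a = v ∧ head a = w) ∨ (tail a = w ∧ head a = v)

/-- no two members of `I` are adjacent -/
def Independent (tail head : A → V) (I : Finset V) : Prop :=
  ∀ v ∈ I, ∀ w ∈ I, ¬ Adjacent tail head v w

/-- the out-neighbours of `v` : the heads of the arcs with the tail `v` -/
def OutNeighbours (tail head : A → V) (v : V) : Set V :=
  {w | ∃ a, tail a = v ∧ head a = w}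

/-- the in-neighbours of `v` : the tails of the arcs with the head `v` -/
def InNeighbours (tail head : A → V) (v : V) : Set V :=
  {w | ∃ a, head a = v ∧ tail a = w}

/-- `w` can be reached from `v` by a directed path with arcs in `T` -/
def Reaches (tail head : A → V) (T : Finset A) (v w : V) : Prop :=
  Relation.ReflTransGen (fun x y : V => ∃ a ∈ T, tail a = x ∧ head a = y) v w

/-- `T` is a spanning out-arborescence with the root `r` : it has `|V| - 1` arcs and reaches all
vertices from `r`. -/
def IsOutArborescence [Fintype V] (tail head : A → V) (r : V) (T : Finset A) : Prop :=
  T.card + 1 = Fintype.card V ∧ ∀ v, Reaches tail head T r v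

/-- `T` is a spanning in-arborescence with the root `r` : it has `|V| - 1` arcs and reaches `r` from
all vertices. -/
def IsInArborescence [Fintype V] (tail head : A → V) (r : V) (T : Finset A) : Prop :=
  T.card + 1 = Fintype.card V ∧ ∀ v, Reaches tail head T v r

theorem ncard_eq [Fintype V] (tail head : A → V) (v : V) :
    {w | ∃ a, tail a = v ∧ head a = w}.ncard = (Pool.Agent.J6H58.AD.nb tail head v).card := by
  rw [← Set.ncard_coe_finset]
  congr 1
  ext w
  simp [Pool.Agent.J6H58.AD.nb]

/-- **Main theorem.** Let `d ≥ 1`, `k ≥ 17000 (a + 1) ^ 2 d ^ 5`, let every nonempty set of vertices
without `s` have at least `k` entering arcs and every nonempty set without `t` at least `k` leaving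
arcs, and let every independent set of vertices `v` with less than `|V| / d` out-neighbours or less
than `|V| / d` in-neighbours have at most `a` elements. Then there are arc-disjoint spanning
arborescences, an out-arborescence with the root `s` and an in-arborescence with the root `t`. -/
theorem result (V A : Type) [Fintype V] [DecidableEq V] [Fintype A] (tail head : A → V)
    (d a k : ℕ) (hd : 1 ≤ d) (hk : 17000 * (a + 1) ^ 2 * d ^ 5 ≤ k) (s t : V)
    (hs : ∀ S : Finset V, S.Nonempty → s ∉ S →
      k ≤ (Finset.univ.filter (fun a : A => tail a ∉ S ∧ head a ∈ S)).card)
    (ht : ∀ S : Finset V, S.Nonempty → t ∉ S →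
      k ≤ (Finset.univ.filter (fun a : A => tail a ∈ S ∧ head a ∉ S)).card)
    (hI : ∀ I : Finset V, Independent tail head I →
      (∀ v ∈ I, d * (OutNeighbours tail head v).ncard < Fintype.card V ∨
        d * (InNeighbours tail head v).ncard < Fintype.card V) → I.card ≤ a) :
    ∃ T₁ T₂ : Finset A, Disjoint T₁ T₂ ∧ IsOutArborescence tail head s T₁ ∧
      IsInArborescence tail head t T₂ := by
  classical
  obtain ⟨X, Y, h1, h2, h3⟩ := Pool.Agent.J6H58.AD.main2 (σ := tail) (τ := head) (k := k)
    (s := s) (t := t) hd hk (by
      intro S hS h
      refine (hs S hS h).trans (le_of_eq ?_)
      unfold Pool.Agent.J6H58.AB.cut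
      congr 1
      ext a
      simp [and_comm]) (by
      intro S hS h
      refine (ht S hS h).trans (le_of_eq ?_)
      unfold Pool.Agent.J6H58.AB.cut
      congr 1
      ext a
      simp) (by
      intro I hg hl
      refine hI I (fun v hv w hw h => hg v hv w hw h.1 h.2) fun v hv => ?_
      unfold OutNeighbours InNeighbours
      rw [ncard_eq tail head v, ncard_eq head tail v]
      exact hl v hv)
  obtain ⟨T₁, g1, g2, g3⟩ := Pool.Agent.J6H58.AB.exists_arb h2
  obtain ⟨T₂, g4, g5, g6⟩ := Pool.Agent.J6H58.AB.exists_arb h3
  refine ⟨T₁, T₂, ?_, ⟨g2, g3⟩, g5, fun v => (g6 v).rev⟩
  rw [Finset.disjoint_left]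
  exact fun a ha hb => h1 a (g1 ha) (g4 hb)

/-- The case `a = 0` : if `D` is `k`-arc-connected with `k ≥ 17000 d ^ 5` and every vertex has at least
`|V| / d` out-neighbours and at least `|V| / d` in-neighbours, then there are arc-disjoint spanning
arborescences, an out-arborescence with the root `s` and an in-arborescence with the root `t`. -/
theorem of_min_semidegree (V A : Type) [Fintype V] [DecidableEq V] [Fintype A]
    (tail head : A → V) (d k : ℕ) (hd : 1 ≤ d) (hk : 17000 * d ^ 5 ≤ k)
    (hc : ∀ S : Finset V, S.Nonempty → S ≠ Finset.univ →
      k ≤ (Finset.univ.filter (fun a : A => tail a ∈ S ∧ head a ∉ S)).card)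
    (hdeg : ∀ v, Fintype.card V ≤ d * (OutNeighbours tail head v).ncard ∧
      Fintype.card V ≤ d * (InNeighbours tail head v).ncard) (s t : V) :
    ∃ T₁ T₂ : Finset A, Disjoint T₁ T₂ ∧ IsOutArborescence tail head s T₁ ∧
      IsInArborescence tail head t T₂ := by
  refine result V A tail head d 0 k hd (by simpa using hk) s t ?_ ?_ ?_
  · intro S hS h
    have h1 := hc Sᶜ ⟨s, Finset.mem_compl.2 h⟩ (by
      rw [Ne, Finset.compl_eq_univ_iff]
      exact hS.ne_empty)
    simpa using h1
  · intro S hS h
    exact hc S hS fun h1 => h (h1 ▸ Finset.mem_univ t)
  · intro I _ h2
    rw [Nat.le_zero, Finset.card_eq_zero, Finset.eq_empty_iff_forall_notMem]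
    intro v hv
    have h3 := hdeg v
    rcases h2 v hv with h4 | h4 <;> omega

end Pool.Agent.Results.MP_4c21b8_co.FewLowSemidegreeIndependent
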