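import Pool.Agent.J6H58.AB.Main

/-!
# Thomassen's conjecture for digraphs whose independence number is less than the arc-connectivity

Thomassen conjectured that for some `k` every `k`-arc-connected digraph `D` has, for every vertex
`r`, an out-arborescence and an in-arborescence with the root `r` which are arc-disjoint. Here this is
proved for digraphs of bounded independence number, with an explicit `k`, in the style of the theorem
of Chvátal and Erdős:

* if `D` is `k`-arc-connected, `k ≥ 3`, and no `k` vertices are independent, then for all vertices `s`,
  `t` there are arc-disjoint spanning arborescences of `D`, an out-arborescence with the root `s`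
  and an in-arborescence with the root `t` (`of_independence_number`, below).

So `k = max (α + 1) 3` is enough for the digraphs of independence number at most `α`. For `α = 1`
(semicomplete digraphs; there `k = 2` is enough) this is due to Bang-Jensen, for `α = 2` and without
parallel arcs it is the frozen statement S08145, proved in the start files. It is enough that all
independent sets which contain `s` have less than `k` elements.

The theorem `result` is more general in three respects. (a) Parallel arcs and loops are allowed, and
instead of `k`-arc-connectivity only the rooted cut conditions are needed: every nonempty set of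
vertices without `s` has at least `k` entering arcs, and every nonempty set without `t` has at least
`k` leaving arcs. (b) Let `Q` be a set of vertices with `s, t ∈ Q`, or with `s ∈ Q` or `t ∈ Q` and
`|Q| ≤ k - 2`; it is enough that `|I| + |Q| < k` for all independent sets `I` of vertices which are
neither in `Q` nor adjacent to `Q`. The case `Q = {s}` is the theorem above. (c) In the other extreme
case, `Q` is a dominating set of the underlying graph with at most `k - 1` vertices which contains `s`
and `t`, and there is no condition on independent sets. So for example the digraphs without parallel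
arcs with `n` vertices for which `k` is at least `C √(n log n)` are covered.

Proof. A partial pair consists of disjoint sets `X`, `Y` of arcs; `X` reaches from `s` the set `U(X)`,
`Y` reaches `t` from the set `U(Y)`, the tails of the arcs of `X` are in `U(X)`, the heads of the arcs
of `Y` in `U(Y)`. Consider the numbers of the arcs outside of `Y` which enter a set disjoint from
`U(X)`, and of the arcs outside of `X` which leave a set disjoint from `U(Y)`. (1) By the argument of
Lovász for the theorem of Edmonds, `X` can be extended to reach any given vertex `q` such that these
numbers decrease by at most one (`grow`; the path from `s` to `q` is a part of an arborescence which is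
directed towards `q`). So any vertex can be put into `U(X) ∩ U(Y)` at the cost of one. (2) If
`q ∈ U(X) ∩ U(Y)`, then `X` can use all remaining arcs which leave `q`, and `Y` those which enter `q`,
at no cost, and so all neighbours of `q` are covered, i.e. in `U(X) ∪ U(Y)` (`free_hub`). (3) If all
vertices are covered and the numbers are at least two then the partial pair can be completed
(`St.complete`, the argument of the proof of S08145 in `Pool/Agent/H871_TA/Ext.lean`). (4) So make the
vertices of `Q` hubs as in (2), then choose further hubs among the vertices which are not covered;
these are independent. (5) For the last hub one unit can be saved: some vertex which is not covered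
can be reached backwards by `Y` through vertices of `U(X)`, and then only the numbers for the sets
which contain one fixed vertex decrease (`last_hub`), which is admissible in (3).
-/

set_option autoImplicit false

namespace Pool.Agent.Results.MP_4c21b8_co.SmallIndependenceNumber

variable {V A : Type}

/-- `v` and `w` are different and joined by an arc in one of the two directions -/
def Adjacent (tail head : A → V) (v w : V) : Prop :=
  v ≠ w ∧ ∃ a, (tail a = v ∧ head a = w) ∨ (tail a = w ∧ head a = v)

/-- no two members of `I` are adjacent -/
def Independent (tail head : A → V) (I : Finset V) : Prop :=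
  ∀ v ∈ I, ∀ w ∈ I, ¬ Adjacent tail head v w

/-- `w` can be reached from `v` by a directed path with arcs in `T` -/
def Reaches (tail head : A → V) (T : Finset A) (v w : V) : Prop :=
  Relation.ReflTransGen (fun x y : V => ∃ a ∈ T, tail a = x ∧ head a = y) v w

/-- `T` is a spanning out-arborescence with the root `r` : it has `|V| - 1` arcs and reaches all
vertices from `r`. -/
def IsOutArborescence [Fintype V] (tail head : A → V) (r : V) (T : Finset A) : Prop :=
  T.card + 1 = Fintype.card V ∧ ∀ v, Reaches tail head T r v

/-- `T` is a spanning in-arborescence with the root `r` : it has `|V| - 1` arcs and reaches `r` from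
all vertices. -/
def IsInArborescence [Fintype V] (tail head : A → V) (r : V) (T : Finset A) : Prop :=
  T.card + 1 = Fintype.card V ∧ ∀ v, Reaches tail head T v r

/-- **Main theorem.** Let every nonempty set of vertices without `s` have at least `k` entering arcs
and every nonempty set without `t` at least `k` leaving arcs, let `Q` contain `s` and `t`, or one of
them and at most `k - 2` vertices, and let `|I| + |Q| < k` for all independent sets `I` of vertices
which are neither in `Q` nor adjacent to `Q`. Then there are arc-disjoint spanning arborescences, an
out-arborescence with the root `s` and an in-arborescence with the root `t`. -/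
theorem result (V A : Type) [Fintype V] [DecidableEq V] [Fintype A] (tail head : A → V) (k : ℕ)
    (s t : V)
    (hs : ∀ S : Finset V, S.Nonempty → s ∉ S →
      k ≤ (Finset.univ.filter (fun a : A => tail a ∉ S ∧ head a ∈ S)).card)
    (ht : ∀ S : Finset V, S.Nonempty → t ∉ S →
      k ≤ (Finset.univ.filter (fun a : A => tail a ∈ S ∧ head a ∉ S)).card)
    (Q : Finset V) (hQ : s ∈ Q ∨ t ∈ Q) (hQ' : (s ∈ Q ∧ t ∈ Q) ∨ Q.card + 2 ≤ k)
    (hI : ∀ I : Finset V, Independent tail head I →
      (∀ v ∈ I, v ∉ Q ∧ ∀ q ∈ Q, ¬ Adjacent tail head v q) → I.card + Q.card < k) :
    ∃ T₁ T₂ : Finset A, Disjoint T₁ T₂ ∧ IsOutArborescence tail head s T₁ ∧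
      IsInArborescence tail head t T₂ := by
  classical
  obtain ⟨X, Y, h1, h2, h3⟩ := Pool.Agent.J6H58.AB.main' (σ := tail) (τ := head) (k := k)
    (s := s) (t := t) (by
      intro S hS h
      refine (hs S hS h).trans (le_of_eq ?_)
      unfold Pool.Agent.J6H58.AB.cut
      congr 1
      ext a
      simp [and_comm]) (by
      intro S hS h
      refine (ht S hS h).trans (le_of_eq ?_)
      unfold Pool.Agent.J6H58.AB.cut
      congr 1
      ext a
      simp) hQ hQ' (by
      intro I hg
      refine hI I (fun v hv w hw h => hg.1 v hv w hw h.1 h.2) fun v hv => ⟨(hg.2 v hv).1,
        fun q hq h => (hg.2 v hv).2 q hq h.2⟩)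
  obtain ⟨T₁, g1, g2, g3⟩ := Pool.Agent.J6H58.AB.exists_arb h2
  obtain ⟨T₂, g4, g5, g6⟩ := Pool.Agent.J6H58.AB.exists_arb h3
  refine ⟨T₁, T₂, ?_, ⟨g2, g3⟩, g5, fun v => (g6 v).rev⟩
  rw [Finset.disjoint_left]
  exact fun a ha hb => h1 a (g1 ha) (g4 hb)

/-- The theorem for the independence number: if `D` is `k`-arc-connected, `k ≥ 3` or `s = t`, and all
independent sets have less than `k` vertices, then there are arc-disjoint spanning arborescences, an
out-arborescence with the root `s` and an in-arborescence with the root `t`. -/
theorem of_independence_number (V A : Type) [Fintype V] [DecidableEq V] [Fintype A]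
    (tail head : A → V) (k : ℕ)
    (hk : ∀ S : Finset V, S.Nonempty → S ≠ Finset.univ →
      k ≤ (Finset.univ.filter (fun a : A => tail a ∈ S ∧ head a ∉ S)).card)
    (hI : ∀ I : Finset V, Independent tail head I → I.card < k) (s t : V) (hst : s = t ∨ 3 ≤ k) :
    ∃ T₁ T₂ : Finset A, Disjoint T₁ T₂ ∧ IsOutArborescence tail head s T₁ ∧
      IsInArborescence tail head t T₂ := by
  refine result V A tail head k s t ?_ ?_ {s} (Or.inl (Finset.mem_singleton_self s)) ?_ ?_
  · intro S hS h
    have h1 := hk Sᶜ ⟨s, Finset.mem_compl.2 h⟩ (by
      rw [Ne, Finset.compl_eq_univ_iff]
      exact hS.ne_empty)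
    simpa using h1
  · intro S hS h
    exact hk S hS fun h1 => h (h1 ▸ Finset.mem_univ t)
  · rcases hst with h | h
    · exact Or.inl ⟨Finset.mem_singleton_self s, by rw [h]; exact Finset.mem_singleton_self t⟩
    · exact Or.inr (by simpa using h)
  · intro I h1 h2
    have h3 : s ∉ I := fun h => (h2 s h).1 (Finset.mem_singleton_self s)
    have h4 := hI (insert s I) (by
      intro v hv w hw hvw
      rcases Finset.mem_insert.1 hv with rfl | hv
      · rcases Finset.mem_insert.1 hw with rfl | hw
        · exact hvw.1 rfl
        · refine (h2 w hw).2 v (Finset.mem_singleton_self v) ⟨hvw.1.symm, ?_⟩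
          obtain ⟨a, ha⟩ := hvw.2
          exact ⟨a, ha.symm⟩
      · rcases Finset.mem_insert.1 hw with hw | hw
        · rw [hw] at hvw
          exact (h2 v hv).2 s (Finset.mem_singleton_self s) hvw
        · exact h1 v hv w hw hvw)
    rw [Finset.card_insert_of_notMem h3] at h4
    simpa using h4

end Pool.Agent.Results.MP_4c21b8_co.SmallIndependenceNumber
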